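import Pool.Agent.N912.LB.All
import Pool.Agent.N490.LC.Finmg

/-!
The factorisations `I J = (n + ω)` of the ideal generated by `n + ω` in the maximal order `ℤ[ω]` of an
imaginary quadratic field (so that `N(I) N(J) = n^2 + t n + c`, which is `n^2 + n + A` for `t = 1`,
`c = A`): the joint distribution of arbitrary completely additive functions `H₁(I)`, `H₂(J)` of the
IDEALS with values in a finite abelian group, at almost all scales. The hypothesis is that they are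
far from the ray class characters in the sense of Halász.

The engine is in `Pool/Agent/N912/{ED,EP,LC,RC,HL,LB}` and in the files of the co-authors.
-/

set_option autoImplicit false

namespace Pool.Agent.Results.MP_8be758_nt.IdealElliott

open Finset Filter

/-- the order `ℤ[ω]`, `ω^2 = t ω - c` -/
abbrev Ord (t c : ℤ) : Type := QuadraticAlgebra ℤ (-c) t

/-- the element `n + ω`, of norm `n^2 + t n + c` -/
def pt (t c : ℤ) (n : ℕ) : Ord t c := ⟨n, 1⟩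

/-- the norm `|R / I|` of an ideal -/
noncomputable abbrev nI {R : Type} [CommRing R] (I : Ideal R) : ℕ := Nat.card (R ⧸ I)

/-- completely additive functions of the nonzero ideals -/
def CAdd {R G : Type} [CommRing R] [AddCommGroup G] (H : Ideal R → G) : Prop :=
  ∀ I J : Ideal R, I ≠ ⊥ → J ≠ ⊥ → H (I * J) = H I + H J

/-- completely multiplicative functions of the nonzero ideals with values in the `N`-th roots of
unity -/
def CMul {R : Type} [CommRing R] (N : ℕ) (F : Ideal R → ℂ) : Prop :=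
  1 ≤ N ∧ (∀ I J : Ideal R, I ≠ ⊥ → J ≠ ⊥ → F (I * J) = F I * F J) ∧
    ∀ I : Ideal R, I ≠ ⊥ → F I ^ N = 1

/-- the characters of the ray class group modulo `𝔪`, extended by zero to the ideals which are not
prime to `𝔪` -/
structure RayChar {R : Type} [CommRing R] (𝔪 : Ideal R) (η : Ideal R →*₀ ℂ) : Prop where
  ne_bot : 𝔪 ≠ ⊥
  supp : ∀ I : Ideal R, η I ≠ 0 ↔ IsCoprime I 𝔪
  ray : ∀ x : R, x ≠ 0 → x - 1 ∈ 𝔪 → η (Ideal.span {x}) = 1

open scoped Classical in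
/-- `F` is far from the ray class characters: for every `𝔪` and every character `η` of the ray class
group modulo `𝔪` the sum of `1/N(𝔭)` over the primes with `F(𝔭) ≠ η(𝔭)` diverges -/
def Far {R : Type} [CommRing R] (F : Ideal R → ℂ) : Prop :=
  ∀ (𝔪 : Ideal R) (η : Ideal R →*₀ ℂ), RayChar 𝔪 η →
    ¬ Summable (fun 𝔭 : Ideal R =>
      if 𝔭.IsPrime ∧ 𝔭 ≠ ⊥ ∧ F 𝔭 ≠ η 𝔭 then 1 / (nI 𝔭 : ℝ) else 0)

/-- the triples `(I, J, n)`, `2 n + t > 0`, with `I J = (n + ω)`, `n ≡ u`, `N(I) ≡ r` and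
`N(J) ≡ r'` modulo `q`, `s₁ X < N(I) ≤ s₂ X`, `s₃ X < N(J) ≤ s₄ X` -/
def Triples (t c : ℤ) (q u r r' : ℕ) (s₁ s₂ s₃ s₄ : ℝ) (X : ℕ) :
    Set (Ideal (Ord t c) × Ideal (Ord t c) × ℕ) :=
  {y | y.1 * y.2.1 = Ideal.span {pt t c y.2.2} ∧ 0 < 2 * (y.2.2 : ℤ) + t ∧
    (y.2.2 ≡ u [MOD q] ∧ nI y.1 ≡ r [MOD q] ∧ nI y.2.1 ≡ r' [MOD q]) ∧
    s₁ * X < (nI y.1 : ℝ) ∧ (nI y.1 : ℝ) ≤ s₂ * X ∧ s₃ * X < (nI y.2.1 : ℝ) ∧
    (nI y.2.1 : ℝ) ≤ s₄ * X}

open scoped Classical in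
/-- the set of the positive integers `X` with `P X` has logarithmic density `0` -/
def LogNull (P : ℕ → Prop) : Prop :=
  Tendsto (fun Z : ℕ => (∑ X ∈ (Icc 1 Z).filter P, 1 / (X : ℝ)) / Real.log Z) atTop (nhds 0)

/-- the pairs of factors `(I, J)` have the property `P` with frequency `κ`: in all residue classes
and all windows in `[0, 1]` and for almost all `X`, the number of the triples `(I, J, n)` with
`P I J` is `κ` times the number of all triples, up to `o(X)` -/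
def Equi (t c : ℤ) (q u : ℕ) (P : Ideal (Ord t c) → Ideal (Ord t c) → Prop) (κ : ℝ) : Prop :=
  ∀ (r r' : ℕ) (s₁ s₂ s₃ s₄ : ℝ), 0 ≤ s₁ → s₁ < s₂ → s₂ ≤ 1 → 0 ≤ s₃ → s₃ < s₄ → s₄ ≤ 1 →
    ∀ ε : ℝ, 0 < ε → LogNull (fun X => ε * X <
      |(Set.ncard {y ∈ Triples t c q u r r' s₁ s₂ s₃ s₄ X | P y.1 y.2.1} : ℝ) -
        κ * (Set.ncard (Triples t c q u r r' s₁ s₂ s₃ s₄ X) : ℝ)|)

/-- `T X ≥ X / (log X)^(log 2 + ε)` for almost all `X` (logarithmic density) and every `ε > 0`, and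
`T N ≥ N^(1-δ)` for every `δ > 0` and all large `N` -/
def Many (T : ℕ → ℕ) : Prop :=
  (∀ ε : ℝ, 0 < ε → LogNull (fun X => (T X : ℝ) < X / Real.log X ^ (Real.log 2 + ε))) ∧
  ∀ δ : ℝ, 0 < δ → ∃ N₀ : ℕ, ∀ N : ℕ, N₀ ≤ N → (N : ℝ) ^ (1 - δ) ≤ (T N : ℝ)

/-- the number of the `n ≤ X`, `n ≡ u mod q`, with a factorisation `(n + ω) = I J`, `N(I) ≤ X`,
`N(J) ≤ X`, and the property `P I J` -/
noncomputable def factored (t c : ℤ) (q u : ℕ) (P : Ideal (Ord t c) → Ideal (Ord t c) → Prop)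
    (X : ℕ) : ℕ :=
  Set.ncard {n : ℕ | n ≤ X ∧ n ≡ u [MOD q] ∧ ∃ I J : Ideal (Ord t c), nI I ≤ X ∧ nI J ≤ X ∧
    I * J = Ideal.span {pt t c n} ∧ P I J}

/-- the number of the `n ≤ X`, `n ≡ u mod q`, for which the ideal `(n + ω)` has the property `P` -/
noncomputable def values (t c : ℤ) (q u : ℕ) (P : Ideal (Ord t c) → Prop) (X : ℕ) : ℕ :=
  Set.ncard {n : ℕ | n ≤ X ∧ n ≡ u [MOD q] ∧ P (Ideal.span {pt t c n})}

section

open Pool.Agent.N912.LC Pool.Agent.N912.LB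
open Pool.Agent.W78.GA (Qd)

variable {t c : ℤ}

theorem logNull_of {f : ℕ → ℝ} (hf : ∀ X, 0 ≤ f X)
    (hA : ∀ ε : ℝ, 0 < ε → ∃ N₀ : ℕ, ∀ N : ℕ, N₀ ≤ N →
      ∑ X ∈ Icc 1 N, 1 / (X : ℝ) ^ 2 * f X ≤ ε * Real.log N)
    (ε : ℝ) (hε : 0 < ε) : LogNull (fun X => ε * X < f X) := by
  have h := Pool.Agent.N490.LC.tt hf hA ε hε
  unfold LogNull
  convert h

theorem logNull_mono {P Q : ℕ → Prop} (h : ∀ X, P X → Q X) (hQ : LogNull Q) : LogNull P := by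
  classical
  unfold LogNull at hQ ⊢
  refine squeeze_zero (fun Z => ?_) (fun Z => ?_) hQ
  · exact div_nonneg (sum_nonneg fun X _ => by positivity) (Real.log_natCast_nonneg Z)
  · refine div_le_div_of_nonneg_right ?_ (Real.log_natCast_nonneg Z)
    refine sum_le_sum_of_subset_of_nonneg ?_ (fun X _ _ => by positivity)
    intro X hX
    rw [mem_filter] at hX ⊢
    exact ⟨hX.1, h X hX.2⟩

theorem many_mono {T T' : ℕ → ℕ} (h : ∀ X, T X ≤ T' X) (hT : Many T) : Many T' := by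
  refine ⟨fun ε hε => logNull_mono (fun X hX => ?_) (hT.1 ε hε), fun δ hδ => ?_⟩
  · exact lt_of_le_of_lt (by exact_mod_cast h X) hX
  · obtain ⟨N₀, hN₀⟩ := hT.2 δ hδ
    exact ⟨N₀, fun N hN => (hN₀ N hN).trans (by exact_mod_cast h N)⟩

theorem pt_eq (n : ℕ) : pt t c n = en t c n := rfl

theorem n_le {d e n X : ℕ} (ht : t = 0 ∨ t = 1) (hc : t ^ 2 < 4 * c)
    (h : (d : ℤ) * e = (n : ℤ) ^ 2 + t * n + c) (hd : d ≤ X) (he : e ≤ X) : n ≤ X := by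
  by_contra hlt
  push Not at hlt
  have h1 : (d : ℤ) * e ≤ X * X := by
    have : d * e ≤ X * X := Nat.mul_le_mul hd he
    exact_mod_cast this
  have h2 : (X : ℤ) < n := by exact_mod_cast hlt
  have h3 : (0 : ℤ) < c := by nlinarith [sq_nonneg t]
  have h4 : (0 : ℤ) ≤ t * n := by
    rcases ht with rfl | rfl
    · simp
    · simp
  have h5 : (0 : ℤ) ≤ X := by positivity
  nlinarith

theorem pos_fac {d e n : ℕ} (ht : t = 0 ∨ t = 1) (hc : t ^ 2 < 4 * c)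
    (h : (d : ℤ) * e = (n : ℤ) ^ 2 + t * n + c) : 1 ≤ d ∧ 1 ≤ e := by
  have h3 : (0 : ℤ) < c := by nlinarith [sq_nonneg t]
  have h4 : (0 : ℤ) ≤ t * n := by
    rcases ht with rfl | rfl
    · simp
    · simp
  have h5 : (0 : ℤ) < (d : ℤ) * e := by rw [h]; positivity
  have h6 : 0 < d * e := by exact_mod_cast h5
  exact ⟨Nat.pos_of_mul_pos_right h6, Nat.pos_of_mul_pos_left h6⟩

/-- the bijection between the factorisations of the ideal and of the number -/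
theorem mem_triples (ht : t = 0 ∨ t = 1) (hc : t ^ 2 < 4 * c) (hO : IsIntegrallyClosed (Ord t c))
    {q u r r' : ℕ} {s₁ s₂ s₃ s₄ : ℝ} {X : ℕ}
    {y : ℕ × ℕ × ℕ} (hy : y ∈ TWq t c q u r r' s₁ s₂ s₃ s₄ X) :
    (i1 t c y.1 y.2.2, i1 t c y.2.1 y.2.2, y.2.2) ∈ Triples t c q u r r' s₁ s₂ s₃ s₄ X := by
  classical
  obtain ⟨d, e, n⟩ := y
  unfold TWq TW TP at hy
  simp only [mem_filter, mem_product, mem_Icc, mem_range] at hy
  obtain ⟨⟨⟨-, h5, h6⟩, h7⟩, h8⟩ := hy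
  obtain ⟨k1, k2, k3⟩ := b7' ht hc hO h5
  refine ⟨k1, h6, ?_, ?_⟩
  · show _ ∧ Nat.card (Qd t c ⧸ i1 t c d n) ≡ r [MOD q] ∧ Nat.card (Qd t c ⧸ i1 t c e n) ≡ r' [MOD q]
    rw [k2, k3]
    exact h8
  · show s₁ * X < (Nat.card (Qd t c ⧸ i1 t c d n) : ℝ) ∧
      (Nat.card (Qd t c ⧸ i1 t c d n) : ℝ) ≤ s₂ * X ∧
      s₃ * X < (Nat.card (Qd t c ⧸ i1 t c e n) : ℝ) ∧ (Nat.card (Qd t c ⧸ i1 t c e n) : ℝ) ≤ s₄ * X
    rw [k2, k3]
    exact h7

theorem ncard_triples (ht : t = 0 ∨ t = 1) (hc : t ^ 2 < 4 * c)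
    (hO : IsIntegrallyClosed (Ord t c)) {q u r r' : ℕ} {s₁ s₂ s₃ s₄ : ℝ} {X : ℕ} (h2 : s₂ ≤ 1)
    (h4 : s₄ ≤ 1) (P : Ideal (Ord t c) → Ideal (Ord t c) → Prop) [DecidablePred fun y : ℕ × ℕ × ℕ =>
      P (i1 t c y.1 y.2.2) (i1 t c y.2.1 y.2.2)] :
    Set.ncard {y ∈ Triples t c q u r r' s₁ s₂ s₃ s₄ X | P y.1 y.2.1} =
      ((TWq t c q u r r' s₁ s₂ s₃ s₄ X).filter
        (fun y => P (i1 t c y.1 y.2.2) (i1 t c y.2.1 y.2.2))).card := by
  classical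
  rw [← Set.ncard_coe_finset]
  symm
  refine Set.ncard_congr (fun y _ => (i1 t c y.1 y.2.2, i1 t c y.2.1 y.2.2, y.2.2)) ?_ ?_ ?_
  · intro y hy
    rw [mem_coe, mem_filter] at hy
    exact ⟨mem_triples ht hc hO hy.1, hy.2⟩
  · intro y z hy hz h
    rw [mem_coe, mem_filter] at hy hz
    obtain ⟨d, e, n⟩ := y
    obtain ⟨d', e', n'⟩ := z
    have hy1 := hy.1
    have hz1 := hz.1
    unfold TWq TW TP at hy1 hz1
    simp only [mem_filter, mem_product, mem_Icc, mem_range] at hy1 hz1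
    obtain ⟨-, k2, k3⟩ := b7' ht hc hO hy1.1.1.2.1
    obtain ⟨-, l2, l3⟩ := b7' ht hc hO hz1.1.1.2.1
    simp only [Prod.mk.injEq] at h
    obtain ⟨h5, h6, h7⟩ := h
    subst h7
    have e1 : d = d' := by rw [← k2, ← l2, h5]
    have e2 : e = e' := by rw [← k3, ← l3, h6]
    rw [e1, e2]
  · rintro ⟨I, J, n⟩ ⟨⟨h5, h6, h7, h8⟩, h9⟩
    simp only at h5 h6 h7 h8 h9
    obtain ⟨d, e, k1, k2, k3, k4, k5⟩ := (b7All t c ht hc hO n I J).1 h5
    have k4' : nI I = d := k4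
    have k5' : nI J = e := k5
    rw [k4', k5'] at h7 h8
    have hX : ⌊(X : ℝ)⌋₊ = X := Nat.floor_natCast X
    have hd : d ≤ X := by
      have := h8.2.1.trans (mul_le_mul_of_nonneg_right h2 (Nat.cast_nonneg X))
      rw [one_mul] at this
      exact_mod_cast this
    have he : e ≤ X := by
      have := h8.2.2.2.trans (mul_le_mul_of_nonneg_right h4 (Nat.cast_nonneg X))
      rw [one_mul] at this
      exact_mod_cast this
    have hn := n_le ht hc k1 hd he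
    obtain ⟨hd1, he1⟩ := pos_fac ht hc k1
    refine ⟨(d, e, n), ?_, ?_⟩
    · rw [mem_coe, mem_filter]
      refine ⟨?_, ?_⟩
      · unfold TWq TW TP
        simp only [mem_filter, mem_product, mem_Icc, mem_range, hX]
        exact ⟨⟨⟨⟨⟨hd1, hd⟩, ⟨he1, he⟩, by omega⟩, k1, h6⟩, h8⟩, h7⟩
      · simp only
        rw [← k2, ← k3]
        exact h9
    · simp only [Prod.mk.injEq]
      exact ⟨k2.symm, k3.symm, trivial⟩

theorem inj_triples (ht : t = 0 ∨ t = 1) (hc : t ^ 2 < 4 * c)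
    (hO : IsIntegrallyClosed (Ord t c)) {q u r r' : ℕ} {s₁ s₂ s₃ s₄ : ℝ} {X : ℕ} :
    Set.InjOn (fun y : ℕ × ℕ × ℕ => (i1 t c y.1 y.2.2, i1 t c y.2.1 y.2.2, y.2.2))
      (TWq t c q u r r' s₁ s₂ s₃ s₄ X : Set (ℕ × ℕ × ℕ)) := by
  classical
  rintro ⟨d, e, n⟩ hy ⟨d', e', n'⟩ hz h
  rw [mem_coe] at hy hz
  unfold TWq TW TP at hy hz
  simp only [mem_filter, mem_product, mem_Icc, mem_range] at hy hz
  obtain ⟨-, k2, k3⟩ := b7' ht hc hO hy.1.1.2.1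
  obtain ⟨-, l2, l3⟩ := b7' ht hc hO hz.1.1.2.1
  simp only [Prod.mk.injEq] at h
  obtain ⟨h5, h6, h7⟩ := h
  subst h7
  have e1 : d = d' := by rw [← k2, ← l2, h5]
  have e2 : e = e' := by rw [← k3, ← l3, h6]
  rw [e1, e2]

theorem triples_eq (ht : t = 0 ∨ t = 1) (hc : t ^ 2 < 4 * c)
    (hO : IsIntegrallyClosed (Ord t c)) {q u r r' : ℕ} {s₁ s₂ s₃ s₄ : ℝ} {X : ℕ} (h2 : s₂ ≤ 1)
    (h4 : s₄ ≤ 1) : Triples t c q u r r' s₁ s₂ s₃ s₄ X =
      (fun y : ℕ × ℕ × ℕ => (i1 t c y.1 y.2.2, i1 t c y.2.1 y.2.2, y.2.2)) ''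
        (TWq t c q u r r' s₁ s₂ s₃ s₄ X : Set (ℕ × ℕ × ℕ)) := by
  classical
  apply Set.Subset.antisymm
  · rintro ⟨I, J, n⟩ ⟨h5, h6, h7, h8⟩
    simp only at h5 h6 h7 h8
    obtain ⟨d, e, k1, k2, k3, k4, k5⟩ := (b7All t c ht hc hO n I J).1 h5
    have k4' : nI I = d := k4
    have k5' : nI J = e := k5
    rw [k4', k5'] at h7 h8
    have hX : ⌊(X : ℝ)⌋₊ = X := Nat.floor_natCast X
    have hd : d ≤ X := by
      have := h8.2.1.trans (mul_le_mul_of_nonneg_right h2 (Nat.cast_nonneg X))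
      rw [one_mul] at this
      exact_mod_cast this
    have he : e ≤ X := by
      have := h8.2.2.2.trans (mul_le_mul_of_nonneg_right h4 (Nat.cast_nonneg X))
      rw [one_mul] at this
      exact_mod_cast this
    have hn := n_le ht hc k1 hd he
    obtain ⟨hd1, he1⟩ := pos_fac ht hc k1
    refine ⟨(d, e, n), ?_, ?_⟩
    · rw [mem_coe]
      unfold TWq TW TP
      simp only [mem_filter, mem_product, mem_Icc, mem_range, hX]
      exact ⟨⟨⟨⟨⟨hd1, hd⟩, ⟨he1, he⟩, by omega⟩, k1, h6⟩, h8⟩, h7⟩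
    · simp only [Prod.mk.injEq]
      exact ⟨k2.symm, k3.symm, trivial⟩
  · rintro _ ⟨y, hy, rfl⟩
    exact mem_triples ht hc hO hy

theorem finsum_triples (ht : t = 0 ∨ t = 1) (hc : t ^ 2 < 4 * c)
    (hO : IsIntegrallyClosed (Ord t c)) {q u r r' : ℕ} {s₁ s₂ s₃ s₄ : ℝ} {X : ℕ} (h2 : s₂ ≤ 1)
    (h4 : s₄ ≤ 1) (F₁ F₂ : Ideal (Ord t c) → ℂ) :
    ∑ᶠ y ∈ Triples t c q u r r' s₁ s₂ s₃ s₄ X, F₁ y.1 * F₂ y.2.1 =
      ∑ y ∈ TWq t c q u r r' s₁ s₂ s₃ s₄ X,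
        F₁ (i1 t c y.1 y.2.2) * F₂ (i1 t c y.2.1 y.2.2) := by
  classical
  rw [triples_eq ht hc hO h2 h4, finsum_mem_image (inj_triples ht hc hO), finsum_mem_coe_finset]

theorem farR_of {F : Ideal (Ord t c) → ℂ} (h : Far F) : FarR F := by
  intro 𝔪 η hη
  exact h 𝔪 η ⟨hη.1, hη.2, hη.3⟩

/-- the group version -/
theorem main_group (ht : t = 0 ∨ t = 1) (hc : t ^ 2 < 4 * c) (hO : IsIntegrallyClosed (Ord t c))
    {q : ℕ} (hq : 1 ≤ q) (u : ℕ) {G : Type} [AddCommGroup G] [Finite G]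
    {H₁ H₂ : Ideal (Ord t c) → G} (hH : HypI t c H₁ H₂) (g : G) :
    Equi t c q u (fun I J => H₁ I + H₂ J = g) (1 / Nat.card G) ∧
      Many (factored t c q u (fun I J => H₁ I + H₂ J = g)) := by
  classical
  refine ⟨fun r r' s₁ s₂ s₃ s₄ h1 h2 h2' h3 h4 h4' ε hε => ?_, ?_⟩
  · refine logNull_of (f := fun X : ℕ =>
      |(Set.ncard {y ∈ Triples t c q u r r' s₁ s₂ s₃ s₄ X | H₁ y.1 + H₂ y.2.1 = g} : ℝ) -
        1 / Nat.card G * (Set.ncard (Triples t c q u r r' s₁ s₂ s₃ s₄ X) : ℝ)|)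
      (fun X => abs_nonneg _) (fun η hη => ?_) ε hε
    obtain ⟨N₀, hN₀⟩ := fingAllB t c ht hc hO G H₁ H₂ hH q u r r' g hq s₁ s₂ s₃ s₄
      h1 h2 h2' h3 h4 h4' η hη
    refine ⟨N₀, fun N hN => le_trans (le_of_eq ?_) (hN₀ N hN)⟩
    refine sum_congr rfl fun X _ => ?_
    have e1 := ncard_triples ht hc hO (q := q) (u := u) (r := r) (r' := r') (s₁ := s₁) (s₂ := s₂)
      (s₃ := s₃) (s₄ := s₄) (X := X) h2' h4' (fun I J => H₁ I + H₂ J = g)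
    have e2 := ncard_triples ht hc hO (q := q) (u := u) (r := r) (r' := r') (s₁ := s₁) (s₂ := s₂)
      (s₃ := s₃) (s₄ := s₄) (X := X) h2' h4' (fun _ _ => True)
    simp only [and_true, filter_true] at e2
    have e3 : {y | y ∈ Triples t c q u r r' s₁ s₂ s₃ s₄ X} =
        Triples t c q u r r' s₁ s₂ s₃ s₄ X := rfl
    rw [e3] at e2
    rw [e1, e2, mul_comm (1 / (Nat.card G : ℝ)), mul_one_div]
  · obtain ⟨h1, h2⟩ := finmgAllB t c ht hc hO G H₁ H₂ hH q u g hq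
    have hm : Many (cGI t c q u H₁ H₂ g) := by
      refine ⟨fun ε hε => ?_, fun δ hδ => ?_⟩
      · have h := h1 ε hε
        unfold LogNull
        convert h
      · obtain ⟨N₀, hN₀⟩ := h2 δ hδ
        exact ⟨N₀, fun N hN => hN₀ N hN⟩
    refine many_mono (fun X => ?_) hm
    refine Set.ncard_le_ncard ?_ ((Set.finite_Iic X).subset fun _ h => h.1)
    rintro n ⟨h5, h6, d, e, h7, h8, h9, h10⟩
    obtain ⟨k1, k2, k3⟩ := b7' ht hc hO h9
    exact ⟨h5, h6, i1 t c d n, i1 t c e n, k2.trans_le h7, k3.trans_le h8, k1, h10⟩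

/-- the multiplicative version -/
theorem main_mul (ht : t = 0 ∨ t = 1) (hc : t ^ 2 < 4 * c) (hO : IsIntegrallyClosed (Ord t c))
    {q : ℕ} (hq : 1 ≤ q) (u : ℕ) {N : ℕ} {F₁ F₂ : Ideal (Ord t c) → ℂ} (h₁ : CMul N F₁)
    (h₂ : CMul N F₂) (hf : Far F₁ ∨ Far F₂)
    (r r' : ℕ) (s₁ s₂ s₃ s₄ : ℝ) (h1 : 0 ≤ s₁) (h2 : s₁ < s₂) (h2' : s₂ ≤ 1) (h3 : 0 ≤ s₃)
    (h4 : s₃ < s₄) (h4' : s₄ ≤ 1) (ε : ℝ) (hε : 0 < ε) :
    LogNull (fun X => ε * X <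
      ‖∑ᶠ y ∈ Triples t c q u r r' s₁ s₂ s₃ s₄ X, F₁ y.1 * F₂ y.2.1‖) := by
  classical
  refine logNull_of (f := fun X : ℕ =>
    ‖∑ᶠ y ∈ Triples t c q u r r' s₁ s₂ s₃ s₄ X, F₁ y.1 * F₂ y.2.1‖)
    (fun X => norm_nonneg _) (fun η hη => ?_) ε hε
  have : NeZero q := ⟨by omega⟩
  obtain ⟨w, hw⟩ : ∃ w : ZMod q → ZMod q → ZMod q → ℂ, w = fun a b d =>
      if a = (u : ZMod q) ∧ b = (r : ZMod q) ∧ d = (r' : ZMod q) then 1 else 0 := ⟨_, rfl⟩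
  have c1 : CMI N F₁ := ⟨h₁.1, h₁.2.1, h₁.2.2⟩
  have c2 : CMI N F₂ := ⟨h₂.1, h₂.2.1, h₂.2.2⟩
  obtain ⟨N₀, hN₀⟩ := core2All t c ht hc hO N F₁ F₂ c1 c2
    (hf.imp (fun h => heAll t c hc hO N F₁ c1 (farR_of h))
      (fun h => heAll t c hc hO N F₂ c2 (farR_of h))) q hq w s₁ s₂ s₃ s₄
    h1 h2 h2' h3 h4 h4' η hη
  refine ⟨N₀, fun M hM => le_trans (le_of_eq ?_) (hN₀ M hM)⟩
  refine sum_congr rfl fun X _ => ?_
  congr 2
  rw [finsum_triples ht hc hO h2' h4']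
  unfold TWq
  rw [sum_filter]
  refine sum_congr rfl fun y _ => ?_
  rw [hw]
  simp only [ZMod.natCast_eq_natCast_iff]
  split_ifs
  · rw [one_mul]
  · rw [zero_mul]

theorem hypI_of (hc : t ^ 2 < 4 * c) (hO : IsIntegrallyClosed (Ord t c)) {G : Type}
    [AddCommGroup G] [Finite G] {H₁ H₂ : Ideal (Ord t c) → G} (h₁ : CAdd H₁) (h₂ : CAdd H₂)
    (hf : ∀ ψ : AddChar G ℂ, ψ ≠ 1 → Far (fun I => ψ (H₁ I)) ∨ Far (fun I => ψ (H₂ I))) :
    HypI t c H₁ H₂ where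
  add₁ := h₁
  add₂ := h₂
  apd := fun ψ hψ => (hf ψ hψ).imp
    (fun h => heAll t c hc hO _ _ (cmiG h₁ ψ) (farR_of h))
    (fun h => heAll t c hc hO _ _ (cmiG h₂ ψ) (farR_of h))

theorem values_finite (q u : ℕ) (P : Ideal (Ord t c) → Prop) (X : ℕ) :
    {n : ℕ | n ≤ X ∧ n ≡ u [MOD q] ∧ P (Ideal.span {pt t c n})}.Finite :=
  (Set.finite_Iic X).subset fun _ h => h.1

theorem pt_ne (n : ℕ) : pt t c n ≠ 0 := fun h => by
  have := congrArg QuadraticAlgebra.im h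
  simp [pt] at this

theorem fac_ne {n : ℕ} {I J : Ideal (Ord t c)} (h : I * J = Ideal.span {pt t c n}) :
    I ≠ ⊥ ∧ J ≠ ⊥ := by
  have h0 : Ideal.span {pt t c n} ≠ ⊥ := fun h => pt_ne n (Ideal.span_singleton_eq_bot.1 h)
  constructor
  · rintro rfl
    rw [Ideal.bot_mul] at h
    exact h0 h.symm
  · rintro rfl
    rw [Ideal.mul_bot] at h
    exact h0 h.symm

theorem factored_le (q u : ℕ) {P : Ideal (Ord t c) → Ideal (Ord t c) → Prop}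
    {Q : Ideal (Ord t c) → Prop} (h : ∀ I J, I ≠ ⊥ → J ≠ ⊥ → P I J → Q (I * J)) (X : ℕ) :
    factored t c q u P X ≤ values t c q u Q X := by
  refine Set.ncard_le_ncard ?_ (values_finite q u Q X)
  rintro n ⟨h1, h2, I, J, -, -, h5, h6⟩
  obtain ⟨h7, h8⟩ := fac_ne h5
  exact ⟨h1, h2, by rw [← h5]; exact h I J h7 h8 h6⟩

/-- the number of the factorisations -/
theorem count (ht : t = 0 ∨ t = 1) (hc : t ^ 2 < 4 * c) (hO : IsIntegrallyClosed (Ord t c))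
    {q : ℕ} (hq : 1 ≤ q) (u : ℕ) : ∃ c₁ : ℝ, 0 < c₁ ∧ ∃ X₀ : ℕ, ∀ X : ℕ, X₀ ≤ X →
      c₁ * X ≤ (Set.ncard {y : Ideal (Ord t c) × Ideal (Ord t c) × ℕ |
        y.1 * y.2.1 = Ideal.span {pt t c y.2.2} ∧ nI y.1 ≤ X ∧ nI y.2.1 ≤ X ∧
          y.2.2 ≡ u [MOD q]} : ℝ) := by
  classical
  obtain ⟨c₁, hc₁, X₀, h⟩ := lc10All 1 t c one_pos (by linarith) q u hq
  refine ⟨c₁, hc₁, X₀, fun X hX => (h X hX).trans ?_⟩
  rw [Nat.cast_le]
  have hfin : {y : Ideal (Ord t c) × Ideal (Ord t c) × ℕ |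
      y.1 * y.2.1 = Ideal.span {pt t c y.2.2} ∧ nI y.1 ≤ X ∧ nI y.2.1 ≤ X ∧
        y.2.2 ≡ u [MOD q]}.Finite := by
    refine Set.Finite.subset (Set.Finite.image
      (fun y : ℕ × ℕ × ℕ => (i1 t c y.1 y.2.2, i1 t c y.2.1 y.2.2, y.2.2))
      ((Icc 0 X ×ˢ Icc 0 X ×ˢ Icc 0 X : Finset (ℕ × ℕ × ℕ)).finite_toSet)) ?_
    rintro ⟨I, J, n⟩ ⟨h5, h6, h7, -⟩
    simp only at h5 h6 h7
    obtain ⟨d, e, k1, k2, k3, k4, k5⟩ := (b7All t c ht hc hO n I J).1 h5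
    have k4' : nI I = d := k4
    have k5' : nI J = e := k5
    rw [k4'] at h6
    rw [k5'] at h7
    have hn := n_le ht hc k1 h6 h7
    refine ⟨(d, e, n), ?_, ?_⟩
    · simp only [coe_product, Set.mem_prod, mem_coe, mem_Icc, zero_le, true_and]
      exact ⟨h6, h7, hn⟩
    · simp only [Prod.mk.injEq]
      exact ⟨k2.symm, k3.symm, trivial⟩
  refine Set.ncard_le_ncard_of_injOn
    (fun y : ℕ × ℕ × ℕ => (i1 t c y.1 y.2.2, i1 t c y.2.1 y.2.2, y.2.2)) ?_ ?_ hfin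
  · rintro ⟨d, e, n⟩ ⟨⟨h1, -, h2, -, h3⟩, h4⟩
    simp only [one_mul] at h1 h2 h3
    obtain ⟨k1, k2, k3⟩ := b7' ht hc hO h1
    have h2' : d ≤ X := by exact_mod_cast h2
    have h3' : e ≤ X := by exact_mod_cast h3
    exact ⟨k1, k2.trans_le h2', k3.trans_le h3', h4⟩
  · rintro ⟨d, e, n⟩ ⟨⟨h1, -⟩, -⟩ ⟨d', e', n'⟩ ⟨⟨h1', -⟩, -⟩ h
    simp only [one_mul] at h1 h1'
    obtain ⟨-, k2, k3⟩ := b7' ht hc hO h1
    obtain ⟨-, l2, l3⟩ := b7' ht hc hO h1'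
    simp only [Prod.mk.injEq] at h
    obtain ⟨h5, h6, h7⟩ := h
    subst h7
    have e1 : d = d' := by rw [← k2, ← l2, h5]
    have e2 : e = e' := by rw [← k3, ← l3, h6]
    rw [e1, e2]

/-- the number of prime factors satisfies the hypothesis -/
theorem far_Om (hc : t ^ 2 < 4 * c) (hO : IsIntegrallyClosed (Ord t c)) {k : ℕ} [NeZero k]
    {h : Ideal (Ord t c) → ZMod k} (hadd : CAdd h)
    (h1 : ∀ 𝔭 : Ideal (Ord t c), 𝔭.IsPrime → 𝔭 ≠ ⊥ → h 𝔭 = 1)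
    (ψ : AddChar (ZMod k) ℂ) (hψ : ψ 1 ≠ 1) : Far (fun I => ψ (h I)) := by
  intro 𝔪 η hη
  exact farcAll t c hc hO _ _ (cmiG hadd ψ) (ψ 1) hψ (fun 𝔭 h2 h3 => by rw [h1 𝔭 h2 h3]) 𝔪 η
    ⟨hη.1, hη.2, hη.3⟩

/-- the joint version -/
theorem far_Om2 (hc : t ^ 2 < 4 * c) (hO : IsIntegrallyClosed (Ord t c)) {k : ℕ} [NeZero k]
    {h : Ideal (Ord t c) → ZMod k} (hadd : CAdd h)
    (h1 : ∀ 𝔭 : Ideal (Ord t c), 𝔭.IsPrime → 𝔭 ≠ ⊥ → h 𝔭 = 1)
    (ψ : AddChar (ZMod k × ZMod k) ℂ) (hψ : ψ ≠ 1) :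
    Far (fun I => ψ (h I, (0 : ZMod k))) ∨ Far (fun I => ψ ((0 : ZMod k), h I)) := by
  obtain ⟨ψ₁, hψ₁⟩ : ∃ ψ₁ : AddChar (ZMod k) ℂ, ∀ a, ψ₁ a = ψ (a, 0) :=
    ⟨⟨fun a => ψ (a, 0), by
      show ψ (0, 0) = 1
      exact AddChar.map_zero_eq_one ψ, by
      intro a b
      show ψ (a + b, 0) = _
      rw [← AddChar.map_add_eq_mul, Prod.mk_add_mk, add_zero]⟩, fun a => rfl⟩
  obtain ⟨ψ₂, hψ₂⟩ : ∃ ψ₂ : AddChar (ZMod k) ℂ, ∀ a, ψ₂ a = ψ (0, a) :=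
    ⟨⟨fun a => ψ (0, a), by
      show ψ (0, 0) = 1
      exact AddChar.map_zero_eq_one ψ, by
      intro a b
      show ψ (0, a + b) = _
      rw [← AddChar.map_add_eq_mul, Prod.mk_add_mk, add_zero]⟩, fun a => rfl⟩
  have key : ∀ φ : AddChar (ZMod k) ℂ, φ 1 = 1 → ∀ a, φ a = 1 := by
    intro φ hφ a
    have : a = a.val • (1 : ZMod k) := by
      rw [nsmul_one, ZMod.natCast_val, ZMod.cast_id', id]
    rw [this, AddChar.map_nsmul_eq_pow, hφ, one_pow]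
  by_cases h2 : ψ₁ 1 = 1
  · by_cases h3 : ψ₂ 1 = 1
    · exfalso
      apply hψ
      ext ⟨a, b⟩
      have : ((a, b) : ZMod k × ZMod k) = (a, 0) + (0, b) := by
        rw [Prod.mk_add_mk, add_zero, zero_add]
      rw [this, AddChar.map_add_eq_mul, ← hψ₁, ← hψ₂, key ψ₁ h2, key ψ₂ h3, AddChar.one_apply,
        mul_one]
    · right
      have := far_Om hc hO hadd h1 ψ₂ h3
      simp only [hψ₂] at this
      exact this
  · left
    have := far_Om hc hO hadd h1 ψ₁ h2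
    simp only [hψ₁] at this
    exact this

end

/-- Let `ℤ[ω]`, `ω^2 = t ω - c`, `t = 0` or `1`, `t^2 < 4 c`, be integrally closed, so that it is the
maximal order of an imaginary quadratic field (every such order is of this form), `q ≥ 1` and `u` a
residue class modulo `q`. Triples are the triples `(I, J, n)` with `I J = (n + ω)`.

1. At least `c₁ X` triples have `N(I), N(J) ≤ X`, `n ≡ u mod q`.
2. Let `F₁`, `F₂` be completely multiplicative functions of the ideals with values in the `N`-th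
roots of unity, one of which is far from the ray class characters. Then the sum of `F₁(I) F₂(J)`
over the triples is `o(X)` for almost all `X`.
3. Let `G` be a finite abelian group, `H₁`, `H₂` completely additive functions of the ideals with
values in `G`, such that for every nontrivial character `ψ` of `G` one of `ψ ∘ H₁`, `ψ ∘ H₂` is far
from the ray class characters. Then for each `g ∈ G` the condition `H₁(I) + H₂(J) = g` has the
frequency `1/|G|` among the triples with `n ≡ u mod q` (`Equi`: in all residue classes, all windows,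
almost all `X`), and many `n ≡ u mod q` have a factorisation `(n + ω) = I J` with this property; if
`H₁ = H₂ = H`, then many `n ≡ u mod q` have `H((n + ω)) = g`.
4. Example: let `h` be the number of prime ideal factors (with multiplicity) modulo `k`. Then
`h(I) = i`, `h(J) = j` has the frequency `1/k^2`, and many `n ≡ u mod q` have such a factorisation. -/
theorem result (t c : ℤ) (ht : t = 0 ∨ t = 1) (hc : t ^ 2 < 4 * c)
    (hO : IsIntegrallyClosed (Ord t c)) (q u : ℕ) (hq : 1 ≤ q) :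
    (∃ c₁ : ℝ, 0 < c₁ ∧ ∃ X₀ : ℕ, ∀ X : ℕ, X₀ ≤ X → c₁ * X ≤
      (Set.ncard {y : Ideal (Ord t c) × Ideal (Ord t c) × ℕ |
        y.1 * y.2.1 = Ideal.span {pt t c y.2.2} ∧ nI y.1 ≤ X ∧ nI y.2.1 ≤ X ∧
          y.2.2 ≡ u [MOD q]} : ℝ)) ∧
    (∀ (N : ℕ) (F₁ F₂ : Ideal (Ord t c) → ℂ), CMul N F₁ → CMul N F₂ → (Far F₁ ∨ Far F₂) →
      ∀ (r r' : ℕ) (s₁ s₂ s₃ s₄ : ℝ), 0 ≤ s₁ → s₁ < s₂ → s₂ ≤ 1 → 0 ≤ s₃ → s₃ < s₄ → s₄ ≤ 1 →
        ∀ ε : ℝ, 0 < ε → LogNull (fun X => ε * X <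
          ‖∑ᶠ y ∈ Triples t c q u r r' s₁ s₂ s₃ s₄ X, F₁ y.1 * F₂ y.2.1‖)) ∧
    (∀ (G : Type) [AddCommGroup G] [Finite G] (H₁ H₂ : Ideal (Ord t c) → G), CAdd H₁ → CAdd H₂ →
      (∀ ψ : AddChar G ℂ, ψ ≠ 1 → Far (fun I => ψ (H₁ I)) ∨ Far (fun I => ψ (H₂ I))) → ∀ g : G,
      Equi t c q u (fun I J => H₁ I + H₂ J = g) (1 / Nat.card G) ∧
      Many (factored t c q u (fun I J => H₁ I + H₂ J = g)) ∧
      (H₁ = H₂ → Many (values t c q u (fun I => H₁ I = g)))) ∧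
    ∀ (k : ℕ) (h : Ideal (Ord t c) → ZMod k), 1 ≤ k → CAdd h →
      (∀ 𝔭 : Ideal (Ord t c), 𝔭.IsPrime → 𝔭 ≠ ⊥ → h 𝔭 = 1) → ∀ i j : ZMod k,
      Equi t c q u (fun I J => h I = i ∧ h J = j) (1 / (k : ℝ) ^ 2) ∧
      Many (factored t c q u (fun I J => h I = i ∧ h J = j)) := by
  classical
  refine ⟨count ht hc hO hq u, ?_, ?_, ?_⟩
  · intro N F₁ F₂ h₁ h₂ hf r r' s₁ s₂ s₃ s₄ h1 h2 h2' h3 h4 h4' ε hε
    exact main_mul ht hc hO hq u h₁ h₂ hf r r' s₁ s₂ s₃ s₄ h1 h2 h2' h3 h4 h4' ε hε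
  · intro G _ _ H₁ H₂ h₁ h₂ hf g
    obtain ⟨h3, h4⟩ := main_group ht hc hO hq u (hypI_of hc hO h₁ h₂ hf) g
    refine ⟨h3, h4, fun h12 => ?_⟩
    refine many_mono (fun X => factored_le q u ?_ X) h4
    intro I J hI hJ h
    rw [h₁ I J hI hJ, ← h, ← h12]
  · intro k h hk hadd hp i j
    have : NeZero k := ⟨by omega⟩
    have hH : Pool.Agent.N912.LB.HypI t c (fun I => (h I, (0 : ZMod k))) (fun I => ((0 : ZMod k), h I)) := by
      refine hypI_of hc hO ?_ ?_ (fun ψ hψ => far_Om2 hc hO hadd hp ψ hψ)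
      · intro I J hI hJ
        show (h (I * J), (0 : ZMod k)) = (h I, 0) + (h J, 0)
        rw [hadd I J hI hJ, Prod.mk_add_mk, add_zero]
      · intro I J hI hJ
        show ((0 : ZMod k), h (I * J)) = (0, h I) + (0, h J)
        rw [hadd I J hI hJ, Prod.mk_add_mk, add_zero]
    have h1 := main_group ht hc hO hq u hH (i, j)
    have e1 : (fun I J : Ideal (Ord t c) => (h I, (0 : ZMod k)) + ((0 : ZMod k), h J) = (i, j)) =
        fun I J => h I = i ∧ h J = j := by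
      funext I J
      rw [Prod.mk_add_mk, add_zero, zero_add, Prod.mk.injEq]
    have e2 : (1 : ℝ) / Nat.card (ZMod k × ZMod k) = 1 / (k : ℝ) ^ 2 := by
      rw [Nat.card_prod, Nat.card_zmod]
      push_cast
      ring
    rw [e2] at h1
    simp only [e1] at h1
    exact h1

end Pool.Agent.Results.MP_8be758_nt.IdealElliott
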