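import Mathlib
import Pool.Agent.N511.LL.Stm
import Pool.Agent.N511.LL.A0
import Pool.Agent.N511.LL.B
import Pool.Agent.N511.LL.C0
import Pool.Agent.N511.LL.D0
import Pool.Agent.N511.LL.E0
import Pool.Agent.N511.LL.F0
import Pool.Agent.N511.LL.F1
import Pool.Agent.N511.LL.F2
import Pool.Agent.N511.LL.I0
import Pool.Agent.N511.LL.K0

/-!
# The joint limit law of the prime counts of the trinomials `x² + x + A`, with full support

For distinct shifts `s_1, ..., s_k` the vectors of the ratios `P_{A + 2 s_j}(n) / L_{A + 2 s_j}(n)`,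
`A ≤ C` odd, have a limit law for `N → ∞`, uniformly for all `C` with `N^(5/6 + ε) ≤ C ≤ N` and for
all `n` with `κ N ≤ n ≤ N` at once. The limit law is the one of the vectors of the constants
`C(1 - 4 (A + 2 s_j))`, and every box of `(0, ∞)^k` has positive probability.

Proof. The law exists since the products over `y < p ≤ z` are near `1` for almost all classes (second
moment, Gauss sums) and since the truncated products have no concentration (Kolmogorov-Rogozin type
argument with the signs at the primes of a dyadic interval). Full support: for large primes all sign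
patterns of `(Δ_j / p)` occur (character sums), the classes modulo the small primes are chosen with all
factors positive, and the divergence of `∑ 1/p` allows to reach any target. The prime counts are compared
with the truncated products by the theorem of helper792 (`Pool.Agent.N792.t7s`, the hand-in
`MP_a1177c_nt.ThinConstantTerms`), for almost all `A ≤ C`.
-/

set_option autoImplicit false

namespace Pool.Agent.Results.MP_8be758_nt.JointLimitLaw

open Finset Filter Topology
open Classical in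
section

/-- `P_A(n)`: the number of `x ∈ {0, 1, ..., n}` with `x² + x + A` prime -/
def P (A n : ℕ) : ℕ := #((range (n + 1)).filter (fun x : ℕ => (x ^ 2 + x + A).Prime))

/-- `L_A(n) = 2 ∫_0^n dx / log (x² + x + A)` -/
noncomputable def L (A n : ℕ) : ℝ := 2 * ∫ x in (0 : ℝ)..n, 1 / Real.log (x ^ 2 + x + A)

/-- `C_y(1 - 4 A)`, the product of the factors `1 - (Δ/p)/(p - 1)`, `Δ = 1 - 4 A`, over the odd primes
`p ≤ y` -/
noncomputable def Cy (A y : ℕ) : ℝ :=
  ∏ p ∈ (Icc 3 y).filter Nat.Prime, (1 - (jacobiSym (1 - 4 * (A : ℤ)) p : ℝ) / ((p : ℝ) - 1))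

/-- the product of the odd primes `p ≤ y` -/
def Q (y : ℕ) : ℕ := ∏ p ∈ (Icc 3 y).filter Nat.Prime, p

/-- **Joint limit law with full support.** For distinct shifts `s j` and every box
`∏ (α j, β j]` with `β j > 0` the proportion of the classes `A` modulo `Q y` (`Q y` the product of the odd
primes `p ≤ y`), such that `C_y(1 - 4 (A + 2 s j))` is in `(α j, β j]` for all `j`, converges for `y → ∞`
to a number `ρ > 0`, and for all `ε, η > 0` and `0 < κ ≤ 1`, all large `N` and all `C` with
`N^(5/6 + ε) ≤ C ≤ N`, the number of the odd `A`, `3 ≤ A ≤ C`, with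
`α j < P_{A + 2 s j}(n) / L_{A + 2 s j}(n) ≤ β j` for all `j` and all `n` with `κ N ≤ n ≤ N` differs from
`ρ C / 2` by at most `η C`. -/
theorem result (k : ℕ) (s : Fin k → ℕ) (hs : Function.Injective s) (α β : Fin k → ℝ)
    (hαβ : ∀ j, α j < β j) (hβ : ∀ j, 0 < β j) :
    ∃ ρ : ℝ, 0 < ρ ∧
      Tendsto (fun y : ℕ => (#((range (Q y)).filter (fun A : ℕ =>
        ∀ j, α j < Cy (A + 2 * s j) y ∧ Cy (A + 2 * s j) y ≤ β j)) : ℝ) / (Q y : ℕ)) atTop (𝓝 ρ) ∧
      ∀ ε κ η : ℝ, 0 < ε → 0 < κ → κ ≤ 1 → 0 < η → ∃ N0 : ℕ, ∀ N : ℕ, N0 ≤ N → ∀ C : ℕ,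
        (N : ℝ) ^ (5 / 6 + ε) ≤ C → C ≤ N →
        |(#((Icc 3 C).filter (fun A : ℕ => Odd A ∧ ∀ j, ∀ n : ℕ, κ * N ≤ n → n ≤ N →
          α j * L (A + 2 * s j) n < P (A + 2 * s j) n ∧
            (P (A + 2 * s j) n : ℝ) ≤ β j * L (A + 2 * s j) n)) : ℝ) - ρ * (C / 2)| ≤ η * C :=
  Pool.Agent.N511.LL.k0 Pool.Agent.N511.LL.c0
    (Pool.Agent.N511.LL.e0 Pool.Agent.N511.LL.a0 Pool.Agent.N511.LL.c0)
    (Pool.Agent.N511.LL.d0 Pool.Agent.N511.LL.a0 Pool.Agent.N511.LL.b2 Pool.Agent.N511.LL.c0)
    (Pool.Agent.N511.LL.f0 Pool.Agent.N511.LL.f1 Pool.Agent.N511.LL.f2 Pool.Agent.N511.LL.b2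
      Pool.Agent.N511.LL.c0)
    (Pool.Agent.N511.LL.i0 Pool.Agent.N511.LL.b2) k s hs α β hαβ hβ

end

end Pool.Agent.Results.MP_8be758_nt.JointLimitLaw
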