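import Pool.Agent.N728.QU.AllG
import Pool.Agent.N401.QL.CST

set_option autoImplicit false

/-!
# Conjecture F for `x² + x + A`, for almost all `A` of the form `c - h² - h`

For every odd integer `c` with few small prime factors, `|c| ≤ K H²`, and all but at most `ε H` of the `h ≤ H` with
`A = c - h² - h ≥ 3`: the number `P_A(n)` of the `0 ≤ x ≤ n` for which `x² + x + A` is a prime is the one of the
conjecture, `C(Δ) · 2 ∑_{x ≤ n} 1 / log (x² + x + A)` with the product `C(Δ)` cut at a power of `log H`, up to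
`δ H / log H`, for all `n ≤ K H` simultaneously.

Proof (`Agent/N728/QU`): `x² + x + A = c + u v` with `u = x - h`, `v = x + h + 1` (and `c - u v` with `u = h - x`,
`v = x + h + 1` for `x < h`), so `v ∓ u = 2 h + 1`. Bilinear sums over `c ± u v` with an arbitrary bounded function of
`v ∓ u` do not change if a divisor of `u v`, composed of primes of a suitable range, is moved from `u` to `v`; by the
multiplication table phenomenon of Erdős few multiplicative windows contain such a divisor, and the off-diagonal terms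
are bounded by two applications of the Cauchy-Schwarz inequality and the fundamental lemma of the sieve (functions with
mean zero on the cells (residue class and block)). For the functions constant on the cells the range is shifted, by moving
divisors again, to `u ≤ v / (log v)^C`, where the theorem of Bombieri and Vinogradov at the sharp level applies. All this
is uniform in `c`.
-/

namespace Pool.Agent.Results.MP_8be758_nt.ThinFamilyOfConstants

open Finset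

/-- `c` has few small prime factors beyond `s₀`: `∑_{p ∣ c, p > s} 1/p ≤ 1/√s` for all `s ≥ s₀`. -/
def Tame (s₀ : ℕ) (c : ℤ) : Prop :=
  c ≠ 0 ∧ ∀ s : ℕ, s₀ ≤ s → ∑ p ∈ c.natAbs.primeFactors.filter (fun p => s < p), 1 / (p : ℝ) ≤ 1 / √(s : ℝ)

/-- `F(x) = x² + x + A`. -/
def F (A : ℤ) (x : ℕ) : ℤ := (x : ℤ) ^ 2 + x + A

/-- `P_A(n)`, the number of the `x ∈ {0, 1, …, n}` for which `F(x)` is prime. -/
def P (A : ℤ) (n : ℕ) : ℕ := ((range (n + 1)).filter (fun x : ℕ => (F A x).toNat.Prime)).card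

/-- `2 ∑_{1 ≤ x ≤ n} 1 / log F(x)`, instead of the integral `L_A(n)`. -/
noncomputable def L (A : ℤ) (n : ℕ) : ℝ := 2 * ∑ x ∈ Icc 1 n, 1 / Real.log ((F A x : ℤ) : ℝ)

/-- The product `C(Δ)` over the odd primes `p ≤ Z`, `Δ = 1 - 4 A` (`jacobiSym Δ p` is the Legendre symbol). -/
noncomputable def constant (A : ℤ) (Z : ℕ) : ℝ :=
  ∏ p ∈ (Icc 3 Z).filter Nat.Prime, (1 - (jacobiSym (1 - 4 * A) p : ℝ) / (p - 1))

/-- The conclusion for one `A`. -/
def Good (κ δ : ℝ) (K H Z : ℕ) (A : ℤ) : Prop :=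
  κ ≤ constant A Z ∧ ∀ n : ℕ, n ≤ K * H → |(P A n : ℝ) - constant A Z * L A n| ≤ δ * (H / Real.log H)

open Classical in
/-- The number of the `1 ≤ h ≤ H` with `A = c - h² - h ≥ 3` for which the conclusion fails. -/
noncomputable def exceptions (κ δ : ℝ) (c : ℤ) (K H Z : ℕ) : ℕ :=
  ((Icc 1 H).filter (fun h : ℕ => 3 ≤ c - (h : ℤ) ^ 2 - h ∧ ¬ Good κ δ K H Z (c - (h : ℤ) ^ 2 - h))).card

lemma Vg_eq (c : ℤ) (h m : ℕ) : Pool.Agent.N728.QU.Vg 1 1 1 c h m = F (c - (h : ℤ) ^ 2 - h) m := by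
  unfold Pool.Agent.N728.QU.Vg F
  ring

lemma odd_shift {c : ℤ} (hc : Odd c) (h : ℕ) : Odd (c - (h : ℤ) ^ 2 - h) := by
  have h1 : Even ((h : ℤ) ^ 2 + h) := by
    have := Int.even_mul_succ_self (h : ℤ)
    have e : (h : ℤ) ^ 2 + h = (h : ℤ) * (h + 1) := by ring
    rw [e]
    exact this
  have h2 : c - (h : ℤ) ^ 2 - h = c - ((h : ℤ) ^ 2 + h) := by ring
  rw [h2]
  exact hc.sub_even h1

lemma Sqg_eq {c : ℤ} (hc : Odd c) {h Z : ℕ} (hA : 3 ≤ c - (h : ℤ) ^ 2 - h) (hZ : 2 ≤ Z) :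
    Pool.Agent.N728.QU.Sqg 1 1 1 c h Z = 2 * constant (c - (h : ℤ) ^ 2 - h) Z := by
  have hodd := odd_shift hc h
  obtain ⟨A, hAe⟩ : ∃ A : ℤ, A = c - (h : ℤ) ^ 2 - h := ⟨_, rfl⟩
  rw [← hAe] at hA hodd ⊢
  have hadm : Pool.Agent.N728.QL.Admissible 1 1 A := by
    refine ⟨by simp, fun hcon => ?_, fun hcon => ?_⟩
    · exact (Int.not_even_iff_odd.2 hodd) hcon.2
    · obtain ⟨r, hr⟩ := hcon
      nlinarith [mul_self_nonneg r]
  have h1 := Pool.Agent.N401.QL.Sg_eq hadm hZ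
  have h2 : Pool.Agent.N728.QU.Sqg 1 1 1 c h Z = Pool.Agent.N728.QL.Sg 1 1 A Z := by
    unfold Pool.Agent.N728.QU.Sqg Pool.Agent.N728.QL.Sg Pool.Agent.N728.QL.om
    have h3 : ∀ m : ℕ, Pool.Agent.N728.QU.Vg 1 1 1 c h m = 1 * (m : ℤ) ^ 2 + 1 * (m : ℤ) + A := by
      intro m
      rw [Vg_eq, ← hAe]
      unfold F
      ring
    simp only [h3]
  rw [h2, h1]
  congr 1
  unfold Pool.Agent.N728.QL.partialC constant
  have h4 : ∀ p : ℕ, p.Prime → ¬ (p : ℤ) ∣ 1 := by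
    intro p hp hd
    have h5 : p ∣ 1 := by exact_mod_cast hd
    exact hp.one_lt.ne' (Nat.dvd_one.1 h5)
  have h6 : (Icc 3 Z).filter (fun p : ℕ => p.Prime ∧ (p : ℤ) ∣ 1 ∧ (p : ℤ) ∣ 1) = ∅ := by
    rw [filter_eq_empty_iff]
    intro p _ hp
    exact h4 p hp.1 hp.2.1
  have h7 : (Icc 3 Z).filter (fun p : ℕ => p.Prime ∧ ¬ (p : ℤ) ∣ 1) = (Icc 3 Z).filter Nat.Prime := by
    apply filter_congr
    intro p _
    exact ⟨fun hp => hp.1, fun hp => ⟨hp, h4 p hp⟩⟩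
  rw [h6, h7, prod_empty, if_neg (by decide)]
  simp

lemma adg {c : ℤ} (hc : Odd c) : Pool.Agent.N728.QU.Adg 1 1 c := by
  refine ⟨fun p hp h _ => ?_, fun _ h => ?_⟩
  · exfalso
    have h1 : (p : ℤ) ∣ 1 := h
    have h2 : p ∣ 1 := by exact_mod_cast h1
    exact hp.one_lt.ne' (Nat.dvd_one.1 h2)
  · exact (Int.not_even_iff_odd.2 hc) (even_iff_two_dvd.2 h)

lemma P_eq {A : ℤ} (n : ℕ) : P A n ≤ ((Icc 1 n).filter (fun m : ℕ => (F A m).toNat.Prime)).card + 1 ∧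
    ((Icc 1 n).filter (fun m : ℕ => (F A m).toNat.Prime)).card ≤ P A n := by
  unfold P
  constructor
  · have h1 : (range (n + 1)).filter (fun x : ℕ => (F A x).toNat.Prime) ⊆
        insert 0 ((Icc 1 n).filter (fun m : ℕ => (F A m).toNat.Prime)) := by
      intro x hx
      rw [mem_filter, mem_range] at hx
      rw [mem_insert, mem_filter, mem_Icc]
      rcases Nat.eq_zero_or_pos x with h0 | h0
      · exact Or.inl h0
      · exact Or.inr ⟨⟨h0, by omega⟩, hx.2⟩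
    exact (card_le_card h1).trans (card_insert_le _ _)
  · apply card_le_card
    intro x hx
    rw [mem_filter, mem_Icc] at hx
    rw [mem_filter, mem_range]
    exact ⟨by omega, hx.2⟩

lemma large (δ : ℝ) (hδ : 0 < δ) : ∃ H₀ : ℕ, ∀ H : ℕ, H₀ ≤ H → 1 ≤ δ / 2 * (H / Real.log H) := by
  obtain ⟨L, hL⟩ := exists_nat_ge ((4 / δ) ^ 2)
  refine ⟨max L 3, fun H hH => ?_⟩
  have h1 : L ≤ H := (le_max_left _ _).trans hH
  have h2 : 3 ≤ H := (le_max_right _ _).trans hH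
  have hH0 : (0 : ℝ) < H := by
    have : 0 < H := by omega
    exact_mod_cast this
  have hlog : 0 < Real.log H := Real.log_pos (by exact_mod_cast (show 1 < H by omega))
  have h3 : 4 / δ ≤ √(H : ℝ) := by
    apply Real.le_sqrt_of_sq_le
    exact hL.trans (by exact_mod_cast h1)
  have h4 : Real.log H ≤ 2 * √(H : ℝ) := by
    have e1 : Real.log H = 2 * Real.log (√(H : ℝ)) := by
      rw [Real.log_sqrt hH0.le]
      ring
    have e2 := Real.log_le_sub_one_of_pos (Real.sqrt_pos.2 hH0)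
    rw [e1]
    linarith
  have h5 : (H : ℝ) = √(H : ℝ) * √(H : ℝ) := (Real.mul_self_sqrt hH0.le).symm
  have h6 : 4 ≤ δ * √(H : ℝ) := by
    rw [div_le_iff₀ hδ] at h3
    linarith
  rw [← mul_div_assoc, le_div_iff₀ hlog, one_mul]
  calc Real.log H ≤ 2 * √(H : ℝ) := h4
    _ = 4 * √(H : ℝ) / 2 := by ring
    _ ≤ δ * √(H : ℝ) * √(H : ℝ) / 2 := by gcongr
    _ = δ / 2 * H := by
        rw [mul_assoc, ← h5]
        ring

/-- **Theorem.** -/
theorem result (s₀ : ℕ) :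
    ∀ ε : ℝ, 0 < ε → ∃ κ : ℝ, 0 < κ ∧ ∀ (δ : ℝ) (K : ℕ), 0 < δ → ∃ Z₀ : ℕ, ∀ A : ℕ, ∃ H₀ : ℕ, ∀ H : ℕ, H₀ ≤ H →
      ∀ (c : ℤ) (Z : ℕ), Tame s₀ c → Odd c → c.natAbs ≤ K * H ^ 2 → Z₀ ≤ Z → (Z : ℝ) ≤ Real.log H ^ A →
      (exceptions κ δ c K H Z : ℝ) ≤ ε * H := by
  classical
  intro ε hε
  obtain ⟨κ, hκ, h1⟩ := Pool.Agent.N728.QU.finalGU 1 1 le_rfl s₀ ε hε
  refine ⟨κ / 2, by positivity, fun δ K hδ => ?_⟩
  obtain ⟨Z₀, h2⟩ := h1 (δ / 2) K (by positivity)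
  refine ⟨max Z₀ 2, fun A => ?_⟩
  obtain ⟨H₀, h3⟩ := h2 A
  obtain ⟨H₁, h4⟩ := large δ hδ
  refine ⟨max H₀ H₁, fun H hH c Z hc hodd hcK hZ1 hZ2 => ?_⟩
  have hHa := (le_max_left _ _).trans hH
  have hHb := (le_max_right _ _).trans hH
  have hZ0 := (le_max_left _ _).trans hZ1
  have hZ2' : 2 ≤ Z := (le_max_right _ _).trans hZ1
  have h5 := h3 H hHa Z c 1 hc (adg hodd) (Or.inl rfl) hcK hZ0 hZ2
  have h6 := h4 H hHb
  refine le_trans ?_ h5
  unfold exceptions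
  rw [Nat.cast_le]
  apply card_le_card
  intro h hh
  rw [mem_filter] at hh ⊢
  refine ⟨hh.1, fun hcon => hh.2.2 ?_⟩
  obtain ⟨g1, g2⟩ := hcon
  have hA := hh.2.1
  rw [Sqg_eq hodd hA hZ2'] at g1 g2
  refine ⟨by linarith, fun n hn => ?_⟩
  have g3 := g2 n hn
  unfold Pool.Agent.N728.QU.cntg at g3
  simp only [Vg_eq] at g3
  have g4 : (Icc 1 n).filter (fun m : ℕ => 2 ≤ F (c - (h : ℤ) ^ 2 - h) m) = Icc 1 n := by
    rw [filter_true_of_mem]
    intro m _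
    unfold F
    have : (0 : ℤ) ≤ (m : ℤ) ^ 2 + m := by positivity
    linarith
  rw [g4] at g3
  obtain ⟨p1, p2⟩ := P_eq (A := c - (h : ℤ) ^ 2 - h) n
  have p1' : (P (c - (h : ℤ) ^ 2 - h) n : ℝ) ≤
      (((Icc 1 n).filter (fun m : ℕ => (F (c - (h : ℤ) ^ 2 - h) m).toNat.Prime)).card : ℝ) + 1 := by exact_mod_cast p1
  have p2' : (((Icc 1 n).filter (fun m : ℕ => (F (c - (h : ℤ) ^ 2 - h) m).toNat.Prime)).card : ℝ) ≤
      (P (c - (h : ℤ) ^ 2 - h) n : ℝ) := by exact_mod_cast p2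
  unfold L
  rw [abs_le] at g3 ⊢
  constructor
  · linarith [g3.1, g3.2]
  · linarith [g3.1, g3.2]

end Pool.Agent.Results.MP_8be758_nt.ThinFamilyOfConstants
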